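import Mathlib

namespace Pool.Agent.Lib.MP_808fa7_an.Main

open Set Filter Topology

universe u

variable {M : Type u} [MetricSpace M] {o : M}

/-- `f` is Lipschitz and vanishes at `o`. -/
def IsLipZero (o : M) (f : M → ℝ) : Prop := (∃ K : NNReal, LipschitzWith K f) ∧ f o = 0

theorem IsLipZero.add {f g : M → ℝ} (hf : IsLipZero o f) (hg : IsLipZero o g) :
    IsLipZero o (f + g) := by
  obtain ⟨⟨K, hK⟩, hf⟩ := hf
  obtain ⟨⟨L, hL⟩, hg⟩ := hg
  exact ⟨⟨K + L, hK.add hL⟩, by simp [hf, hg]⟩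

theorem IsLipZero.zero : IsLipZero o (0 : M → ℝ) := ⟨⟨0, LipschitzWith.const 0⟩, rfl⟩

theorem IsLipZero.smul (c : ℝ) {f : M → ℝ} (hf : IsLipZero o f) : IsLipZero o (c • f) := by
  obtain ⟨⟨K, hK⟩, hf⟩ := hf
  refine ⟨⟨‖c‖₊ * K, LipschitzWith.of_dist_le_mul fun x y => ?_⟩, by simp [hf]⟩
  have h := hK.dist_le_mul x y
  rw [Real.dist_eq] at h ⊢
  have : (c • f) x - (c • f) y = c * (f x - f y) := by
    simp [Pi.smul_apply, smul_eq_mul]; ring
  rw [this, abs_mul]
  push_cast
  rw [Real.norm_eq_abs, mul_assoc]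
  exact mul_le_mul_of_nonneg_left h (abs_nonneg c)

/-- The vector space of Lipschitz functions `f : M → ℝ` with `f o = 0`
(pointwise operations). -/
def lipSubmodule (M : Type u) [MetricSpace M] (o : M) : Submodule ℝ (M → ℝ) where
  carrier := {f | IsLipZero o f}
  add_mem' := IsLipZero.add
  zero_mem' := IsLipZero.zero
  smul_mem' := fun c _ hf => IsLipZero.smul c hf

/-- The space `Lip_0(M)` over the pointed metric space `(M, o)`. -/
def LipZero (M : Type u) [MetricSpace M] (o : M) : Type u := ↥(lipSubmodule M o)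

instance : AddCommGroup (LipZero M o) := (lipSubmodule M o).addCommGroup

instance : Module ℝ (LipZero M o) := (lipSubmodule M o).module

/-- The norm `‖f‖ = sup_{x ≠ y} |f x - f y| / d(x, y)` (the pairs with `x = y` contribute `0`). -/
noncomputable instance : Norm (LipZero M o) :=
  ⟨fun f => ⨆ p : M × M, |f.1 p.1 - f.1 p.2| / dist p.1 p.2⟩

theorem norm_def (f : LipZero M o) :
    ‖f‖ = ⨆ p : M × M, |f.1 p.1 - f.1 p.2| / dist p.1 p.2 := rfl

theorem bddAbove_slopes (f : LipZero M o) :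
    BddAbove (Set.range fun p : M × M => |f.1 p.1 - f.1 p.2| / dist p.1 p.2) := by
  obtain ⟨K, hK⟩ := f.2.1
  refine ⟨K, ?_⟩
  rintro _ ⟨⟨x, y⟩, rfl⟩
  have h := hK.dist_le_mul x y
  rw [Real.dist_eq] at h
  exact div_le_of_le_mul₀ dist_nonneg K.2 h

theorem abs_sub_le (f : LipZero M o) (x y : M) : |f.1 x - f.1 y| ≤ ‖f‖ * dist x y := by
  by_cases hxy : x = y
  · subst hxy; simp
  · have h := le_ciSup (bddAbove_slopes f) (x, y)
    have hpos : 0 < dist x y := dist_pos.2 hxy
    rw [norm_def]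
    rwa [div_le_iff₀ hpos] at h

theorem norm_le_of (f : LipZero M o) {C : ℝ} (hC : 0 ≤ C)
    (h : ∀ x y, |f.1 x - f.1 y| ≤ C * dist x y) : ‖f‖ ≤ C := by
  have : Nonempty (M × M) := ⟨(o, o)⟩
  rw [norm_def]
  refine ciSup_le fun p => ?_
  exact div_le_of_le_mul₀ dist_nonneg hC (h p.1 p.2)

theorem norm_nonneg' (f : LipZero M o) : 0 ≤ ‖f‖ := by
  rw [norm_def]
  exact Real.iSup_nonneg fun p => by positivity

theorem coe_add (f g : LipZero M o) : (f + g).1 = f.1 + g.1 := rfl
theorem coe_sub (f g : LipZero M o) : (f - g).1 = f.1 - g.1 := rfl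
theorem coe_smul (c : ℝ) (f : LipZero M o) : (c • f).1 = c • f.1 := rfl
theorem coe_zero : (0 : LipZero M o).1 = 0 := rfl

theorem core : NormedSpace.Core ℝ (LipZero M o) where
  norm_nonneg := norm_nonneg'
  norm_smul := by
    have key : ∀ (c : ℝ) (f : LipZero M o), ‖c • f‖ ≤ ‖c‖ * ‖f‖ := by
      intro c f
      refine norm_le_of _ (mul_nonneg (norm_nonneg _) (norm_nonneg' f)) fun x y => ?_
      rw [coe_smul]
      have : (c • f.1) x - (c • f.1) y = c * (f.1 x - f.1 y) := by
        simp [Pi.smul_apply, smul_eq_mul]; ring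
      rw [this, abs_mul, Real.norm_eq_abs, mul_assoc]
      exact mul_le_mul_of_nonneg_left (abs_sub_le f x y) (abs_nonneg c)
    intro c f
    refine le_antisymm (key c f) ?_
    by_cases hc : c = 0
    · subst hc
      simp only [norm_zero, zero_mul]
      exact norm_nonneg' _
    · have h := key c⁻¹ (c • f)
      rw [inv_smul_smul₀ hc, norm_inv] at h
      have hcpos : 0 < ‖c‖ := norm_pos_iff.2 hc
      rw [inv_mul_eq_div, le_div_iff₀ hcpos] at h
      linarith
  norm_triangle := by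
    intro f g
    refine norm_le_of _ (add_nonneg (norm_nonneg' f) (norm_nonneg' g)) fun x y => ?_
    rw [coe_add]
    have : (f.1 + g.1) x - (f.1 + g.1) y = (f.1 x - f.1 y) + (g.1 x - g.1 y) := by
      simp [Pi.add_apply]; ring
    rw [this, add_mul]
    exact (abs_add_le _ _).trans (add_le_add (abs_sub_le f x y) (abs_sub_le g x y))
  norm_eq_zero_iff := by
    intro f
    constructor
    · intro h
      apply Subtype.ext
      funext x
      have h1 := abs_sub_le f x o
      rw [h, zero_mul, f.2.2, sub_zero] at h1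
      have : f.1 x = 0 := abs_eq_zero.1 (le_antisymm h1 (abs_nonneg _))
      rw [this]; rfl
    · rintro rfl
      refine le_antisymm (norm_le_of _ le_rfl fun x y => ?_) (norm_nonneg' _)
      rw [coe_zero]; simp

noncomputable instance : NormedAddCommGroup (LipZero M o) := NormedAddCommGroup.ofCore core

noncomputable instance : NormedSpace ℝ (LipZero M o) := NormedSpace.ofCore core

/-- The linear functional `f ↦ f(x)` on `Lip_0(M)`. -/
def evalLinear (x : M) : LipZero M o →ₗ[ℝ] ℝ where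
  toFun := fun f => f.1 x
  map_add' := fun _ _ => rfl
  map_smul' := fun _ _ => rfl

theorem evalLinear_bound (x : M) (f : LipZero M o) : ‖evalLinear x f‖ ≤ dist x o * ‖f‖ := by
  have h := abs_sub_le f x o
  rw [f.2.2, sub_zero] at h
  rw [Real.norm_eq_abs, mul_comm]
  exact h

/-- The evaluation functional `δ_x ∈ Lip_0(M)^*`, `δ_x(f) = f(x)`. -/
noncomputable def evalAt (x : M) : StrongDual ℝ (LipZero M o) :=
  (evalLinear x).mkContinuous (dist x o) (evalLinear_bound x)

theorem evalAt_apply (x : M) (f : LipZero M o) : evalAt x f = f.1 x := rfl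

variable (M o) in
/-- The Lipschitz-free space `F(M)`: the closed linear span in `Lip_0(M)^*` of the evaluations. -/
noncomputable def FreeSpace : Submodule ℝ (StrongDual ℝ (LipZero M o)) :=
  (Submodule.span ℝ (Set.range fun x : M => (evalAt x : StrongDual ℝ (LipZero M o)))).topologicalClosure

variable (M o) in
/-- The space `F(M)` as a normed space, with the norm of `Lip_0(M)^*`. -/
def LipFree : Type u := ↥(FreeSpace M o)

noncomputable instance : NormedAddCommGroup (LipFree M o) :=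
  (FreeSpace M o).normedAddCommGroup

/-- `(δ_p - δ_q) / d(p,q)` in `Lip_0(M)^*`. -/
noncomputable def moleculeDual (p q : M) : StrongDual ℝ (LipZero M o) :=
  (dist p q)⁻¹ • (evalAt p - evalAt q)

theorem moleculeDual_mem (p q : M) :
    (moleculeDual p q : StrongDual ℝ (LipZero M o)) ∈ FreeSpace M o :=
  Submodule.le_topologicalClosure _
    (Submodule.smul_mem _ _ (Submodule.sub_mem _
      (Submodule.subset_span ⟨p, rfl⟩) (Submodule.subset_span ⟨q, rfl⟩)))

/-- The molecule `m_{p,q} = (δ_p - δ_q) / d(p,q)` as an element of `F(M)`. -/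
noncomputable def molecule (p q : M) : LipFree M o :=
  ⟨moleculeDual p q, moleculeDual_mem p q⟩

/-- The value `f(m)` of `f ∈ Lip_0(M)` at `m ∈ F(M) ⊆ Lip_0(M)^*`. -/
noncomputable def pairing (m : LipFree M o) (f : LipZero M o) : ℝ :=
  (m.1 : StrongDual ℝ (LipZero M o)) f

/-- `f` strongly exposes at `m_{p,q}`: every sequence of molecules along which `|f|` tends to `‖f‖`
has a subsequence converging in the norm of `F(M)` to `m_{p,q}` or to `- m_{p,q}`. -/
def StronglyExposesAt (f : LipZero M o) (p q : M) : Prop :=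
  ∀ u v : ℕ → M, (∀ n, u n ≠ v n) →
    Tendsto (fun n => |pairing (molecule (u n) (v n)) f|) atTop (𝓝 ‖f‖) →
    ∃ φ : ℕ → ℕ, StrictMono φ ∧
      (Tendsto (fun n => (molecule (u (φ n)) (v (φ n)) : LipFree M o)) atTop
          (𝓝 (molecule p q)) ∨
        Tendsto (fun n => (molecule (u (φ n)) (v (φ n)) : LipFree M o)) atTop
          (𝓝 (-molecule p q)))

variable (M o) in
/-- The set `LipSE(M)`. -/
def LipSE : Set (LipZero M o) := {f | ∃ p q : M, p ≠ q ∧ StronglyExposesAt f p q}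

variable (M o) in
/-- The set `SNA(M)` of functions that strongly attain their norm. -/
def SNA : Set (LipZero M o) := {f | ∃ p q : M, p ≠ q ∧ ‖f‖ = |f.1 p - f.1 q| / dist p q}


theorem exists_near_norm (f : LipZero M o) {c : ℝ} (hc0 : 0 ≤ c) (hc : c < ‖f‖) :
    ∃ x y : M, x ≠ y ∧ c * dist x y < f.1 x - f.1 y := by
  have : Nonempty (M × M) := ⟨(o, o)⟩
  obtain ⟨⟨x, y⟩, hp⟩ := exists_lt_of_lt_ciSup (f := fun p : M × M =>
    |f.1 p.1 - f.1 p.2| / dist p.1 p.2) hc
  simp only at hp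
  have hxy : x ≠ y := by
    rintro rfl
    simp at hp
    linarith
  have hpos : 0 < dist x y := dist_pos.2 hxy
  rw [lt_div_iff₀ hpos] at hp
  rcases le_total 0 (f.1 x - f.1 y) with h | h
  · rw [abs_of_nonneg h] at hp
    exact ⟨x, y, hxy, hp⟩
  · rw [abs_of_nonpos h] at hp
    refine ⟨y, x, hxy.symm, ?_⟩
    rw [dist_comm y x]
    linarith

theorem molecule_apply (p q : M) (f : LipZero M o) :
    pairing (molecule p q) f = (dist p q)⁻¹ * (f.1 p - f.1 q) := rfl

theorem sub_le_norm (f : LipZero M o) (x y : M) : f.1 x - f.1 y ≤ ‖f‖ * dist x y :=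
  (le_abs_self _).trans (abs_sub_le f x y)

theorem molecule_swap (p q : M) : (molecule p q : LipFree M o) = -molecule q p := by
  apply Subtype.ext
  apply ContinuousLinearMap.ext
  intro f
  change (dist p q)⁻¹ * (f.1 p - f.1 q) = -((dist q p)⁻¹ * (f.1 q - f.1 p))
  rw [dist_comm q p]
  ring

theorem norm_molecule_sub_le {p q u v : M} (hpq : p ≠ q) (huv : u ≠ v) :
    ‖(molecule p q : LipFree M o) - molecule u v‖ ≤ 2 * (dist p u + dist q v) / dist u v := by
  have hd : 0 < dist p q := dist_pos.2 hpq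
  have hD : 0 < dist u v := dist_pos.2 huv
  have hs : 0 ≤ dist p u + dist q v := add_nonneg dist_nonneg dist_nonneg
  change ‖(moleculeDual p q : StrongDual ℝ (LipZero M o)) - moleculeDual u v‖ ≤ _
  refine ContinuousLinearMap.opNorm_le_bound _ (by positivity) fun f => ?_
  change ‖(dist p q)⁻¹ * (f.1 p - f.1 q) - (dist u v)⁻¹ * (f.1 u - f.1 v)‖ ≤ _
  rw [Real.norm_eq_abs]
  have hA : |f.1 p - f.1 q| ≤ ‖f‖ * dist p q := abs_sub_le f p q
  have hAB : |(f.1 p - f.1 q) - (f.1 u - f.1 v)| ≤ ‖f‖ * (dist p u + dist q v) := by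
    have h1 := abs_sub_le f p u
    have h2 := abs_sub_le f q v
    calc |(f.1 p - f.1 q) - (f.1 u - f.1 v)| = |(f.1 p - f.1 u) - (f.1 q - f.1 v)| := by ring_nf
      _ ≤ |f.1 p - f.1 u| + |f.1 q - f.1 v| := abs_sub _ _
      _ ≤ _ := by rw [mul_add]; exact add_le_add h1 h2
  have hdD : |dist u v - dist p q| ≤ dist p u + dist q v := by
    rw [abs_le]
    have h1 := dist_triangle4 u p q v
    have h2 := dist_triangle4 p u v q
    rw [dist_comm u p] at h1
    rw [dist_comm v q] at h2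
    constructor <;> linarith
  have key : (dist p q)⁻¹ * (f.1 p - f.1 q) - (dist u v)⁻¹ * (f.1 u - f.1 v)
      = (dist u v)⁻¹ * ((dist p q)⁻¹ * (f.1 p - f.1 q) * (dist u v - dist p q)
        + ((f.1 p - f.1 q) - (f.1 u - f.1 v))) := by
    field_simp
    ring
  rw [key, abs_mul, abs_of_pos (inv_pos.2 hD)]
  have h3 : |(dist p q)⁻¹ * (f.1 p - f.1 q) * (dist u v - dist p q)|
      ≤ ‖f‖ * (dist p u + dist q v) := by
    rw [abs_mul, abs_mul, abs_of_pos (inv_pos.2 hd)]
    have : (dist p q)⁻¹ * |f.1 p - f.1 q| ≤ ‖f‖ := by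
      rw [inv_mul_le_iff₀ hd]; linarith
    exact mul_le_mul this hdD (abs_nonneg _) (norm_nonneg' f)
  have h4 := (abs_add_le ((dist p q)⁻¹ * (f.1 p - f.1 q) * (dist u v - dist p q))
    ((f.1 p - f.1 q) - (f.1 u - f.1 v))).trans (add_le_add h3 hAB)
  calc (dist u v)⁻¹ * |(dist p q)⁻¹ * (f.1 p - f.1 q) * (dist u v - dist p q)
        + ((f.1 p - f.1 q) - (f.1 u - f.1 v))|
      ≤ (dist u v)⁻¹ * (‖f‖ * (dist p u + dist q v) + ‖f‖ * (dist p u + dist q v)) :=
        mul_le_mul_of_nonneg_left h4 (inv_pos.2 hD).le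
    _ = _ := by field_simp; ring

/-! ### The bump functions -/

/-- The function `t ↦ max (ℓ / 2 - (1 - τ) d(t, x)) 0`. -/
noncomputable def bump (ℓ τ : ℝ) (x t : M) : ℝ := max (ℓ / 2 - (1 - τ) * dist t x) 0

theorem bump_nonneg (ℓ τ : ℝ) (x t : M) : 0 ≤ bump ℓ τ x t := le_max_right _ _

theorem bump_sub_le {ℓ τ : ℝ} (hτ : τ ≤ 1) (x t s : M) :
    bump ℓ τ x t - bump ℓ τ x s ≤ (1 - τ) * dist t s := by
  unfold bump
  have h1 : dist s x ≤ dist t s + dist t x := by
    have := dist_triangle s t x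
    rwa [dist_comm s t] at this
  have h2 : 0 ≤ 1 - τ := by linarith
  have h3 : (1 - τ) * dist s x ≤ (1 - τ) * (dist t s + dist t x) :=
    mul_le_mul_of_nonneg_left h1 h2
  have h4 : 0 ≤ (1 - τ) * dist t s := mul_nonneg h2 dist_nonneg
  rcases max_cases (ℓ / 2 - (1 - τ) * dist t x) 0 with ⟨h, _⟩ | ⟨h, _⟩
  · rw [h]
    have := le_max_left (ℓ / 2 - (1 - τ) * dist s x) 0
    linarith
  · rw [h]
    have := le_max_right (ℓ / 2 - (1 - τ) * dist s x) 0
    linarith

/-- The function `t ↦ bump x t - bump y t`. -/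
noncomputable def dbl (ℓ τ : ℝ) (x y t : M) : ℝ := bump ℓ τ x t - bump ℓ τ y t

theorem dbl_sub_le {ℓ τ : ℝ} (hτ : τ ≤ 1) (x y t s : M) :
    dbl ℓ τ x y t - dbl ℓ τ x y s ≤ 2 * (1 - τ) * dist t s := by
  unfold dbl
  have h1 := bump_sub_le (ℓ := ℓ) hτ x t s
  have h2 := bump_sub_le (ℓ := ℓ) hτ y s t
  rw [dist_comm s t] at h2
  linarith

theorem abs_dbl_sub_le {ℓ τ : ℝ} (hτ : τ ≤ 1) (x y t s : M) :
    |dbl ℓ τ x y t - dbl ℓ τ x y s| ≤ 2 * (1 - τ) * dist t s := by
  rw [abs_le]
  constructor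
  · have := dbl_sub_le (ℓ := ℓ) hτ x y s t
    rw [dist_comm s t] at this
    linarith
  · exact dbl_sub_le hτ x y t s

/-- If one of the two bumps vanishes at `s` then one of the slopes at `s` is small. -/
theorem dbl_sub_le_left {ℓ τ : ℝ} (hτ : τ ≤ 1) (x y t s : M) (hs : bump ℓ τ y s = 0) :
    dbl ℓ τ x y t - dbl ℓ τ x y s ≤ (1 - τ) * dist t s := by
  unfold dbl
  have h1 := bump_sub_le (ℓ := ℓ) hτ x t s
  have h2 := bump_nonneg ℓ τ y t
  rw [hs]
  linarith

theorem dbl_sub_le_right {ℓ τ : ℝ} (hτ : τ ≤ 1) (x y t s : M) (ht : bump ℓ τ x t = 0) :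
    dbl ℓ τ x y t - dbl ℓ τ x y s ≤ (1 - τ) * dist t s := by
  unfold dbl
  have h1 := bump_sub_le (ℓ := ℓ) hτ y s t
  rw [dist_comm s t] at h1
  have h2 := bump_nonneg ℓ τ x s
  rw [ht]
  linarith

theorem dbl_diff {τ : ℝ} (hτ : τ < 1 / 2) {x y : M} :
    dbl (dist x y) τ x y x - dbl (dist x y) τ x y y = dist x y := by
  unfold dbl bump
  have h0 : (0 : ℝ) ≤ dist x y := dist_nonneg
  have h1 : dist x y / 2 - (1 - τ) * dist x y ≤ 0 := by nlinarith
  have h2 : 0 ≤ dist x y / 2 := by linarith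
  rw [dist_self, dist_self, dist_comm y x, mul_zero, sub_zero, max_eq_left h2, max_eq_right h1]
  ring

/-- The element of `Lip_0(M)` obtained from `dbl` by subtracting a constant. -/
noncomputable def peak (o : M) (τ : ℝ) (hτ : τ ≤ 1) (x y : M) : LipZero M o :=
  ⟨fun t => dbl (dist x y) τ x y t - dbl (dist x y) τ x y o,
    ⟨⟨Real.toNNReal (2 * (1 - τ)), LipschitzWith.of_dist_le_mul fun t s => by
      rw [Real.dist_eq, Real.coe_toNNReal _ (by linarith)]
      have := abs_dbl_sub_le (ℓ := dist x y) hτ x y t s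
      calc _ = |dbl (dist x y) τ x y t - dbl (dist x y) τ x y s| := by ring_nf
        _ ≤ _ := this⟩, sub_self _⟩⟩

theorem peak_sub (τ : ℝ) (hτ : τ ≤ 1) (x y t s : M) :
    (peak o τ hτ x y).1 t - (peak o τ hτ x y).1 s
      = dbl (dist x y) τ x y t - dbl (dist x y) τ x y s := by
  change (dbl (dist x y) τ x y t - dbl (dist x y) τ x y o)
    - (dbl (dist x y) τ x y s - dbl (dist x y) τ x y o) = _
  ring

theorem norm_peak_le {τ : ℝ} (hτ0 : 0 ≤ τ) (hτ : τ ≤ 1) (x y : M) :
    ‖peak o τ hτ x y‖ ≤ 2 := by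
  refine norm_le_of _ (by norm_num) fun t s => ?_
  rw [peak_sub]
  refine (abs_dbl_sub_le hτ x y t s).trans ?_
  exact mul_le_mul_of_nonneg_right (by linarith) dist_nonneg


/-! ### Pairs failing property (Z) -/

/-- Slope estimate for `dbl` at a pair `u, v` failing property (Z) with constant `c`. -/
theorem dbl_slope_of_not_Z {u v : M} (huv : u ≠ v) {c : ℝ} (hc0 : 0 < c) (hc1 : c ≤ 1)
    (hZ : ∀ w, w ≠ u → w ≠ v →
      dist u v + c * min (dist u w) (dist w v) ≤ dist u w + dist w v) (p q : M) :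
    dbl (dist u v) (c / 8) u v p - dbl (dist u v) (c / 8) u v q ≤ (1 - c / 8) * dist p q ∨
    dbl (dist u v) (c / 8) u v p - dbl (dist u v) (c / 8) u v q
      ≤ dist p q - c / 8 * (dist p u + dist q v) := by
  have hL : 0 < dist u v := dist_pos.2 huv
  have hτ : c / 8 ≤ 1 := by linarith
  by_cases h1 : bump (dist u v) (c / 8) v q = 0
  · exact Or.inl (dbl_sub_le_left hτ u v p q h1)
  by_cases h2 : bump (dist u v) (c / 8) u p = 0
  · exact Or.inl (dbl_sub_le_right hτ u v p q h2)
  right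
  -- the extended form of (Z) failing, valid for all points
  have hZ' : ∀ w, dist u v + c * min (dist u w) (dist w v) ≤ dist u w + dist w v := by
    intro w
    by_cases hwu : w = u
    · subst hwu
      rw [dist_self, min_eq_left dist_nonneg]; linarith
    by_cases hwv : w = v
    · subst hwv
      rw [dist_self, min_eq_right dist_nonneg]; linarith
    exact hZ w hwu hwv
  set L := dist u v with hLdef
  have hpos_of : ∀ (x t : M), bump L (c / 8) x t ≠ 0 → (1 - c / 8) * dist t x < L / 2 := by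
    intro x t h
    by_contra hcon
    push Not at hcon
    exact h (max_eq_right (by linarith))
  have ha := hpos_of u p h2
  have hb := hpos_of v q h1
  have ha0 : 0 ≤ dist p u := dist_nonneg
  have hb0 : 0 ≤ dist q v := dist_nonneg
  -- distance from p to v
  have key1 : ∀ t : M, (1 - c / 8) * dist t u < L / 2 →
      L - dist t u + c / 2 * dist t u ≤ dist t v ∧ 0 < dist t v ∧
        L / 2 ≤ (1 - c / 8) * dist t v := by
    intro t ht
    have h3 := hZ' t
    rw [dist_comm u t] at h3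
    have ht0 : 0 ≤ dist t u := dist_nonneg
    have ht1 : 0 ≤ dist t v := dist_nonneg
    have h4 : L ≤ dist t u + dist t v := by
      have := dist_triangle_left u v t
      exact this
    have h5 : dist t u / 2 ≤ dist t v := by nlinarith
    have h6 : dist t u / 2 ≤ min (dist t u) (dist t v) := le_min (by linarith) h5
    have h7 : c * (dist t u / 2) ≤ c * min (dist t u) (dist t v) :=
      mul_le_mul_of_nonneg_left h6 hc0.le
    have h8 : L - dist t u + c / 2 * dist t u ≤ dist t v := by linarith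
    refine ⟨h8, by nlinarith, ?_⟩
    nlinarith
  have key2 : ∀ t : M, (1 - c / 8) * dist t v < L / 2 →
      L - dist t v + c / 2 * dist t v ≤ dist t u ∧ 0 < dist t u ∧
        L / 2 ≤ (1 - c / 8) * dist t u := by
    intro t ht
    have h3 := hZ' t
    rw [dist_comm u t] at h3
    have ht0 : 0 ≤ dist t u := dist_nonneg
    have ht1 : 0 ≤ dist t v := dist_nonneg
    have h4 : L ≤ dist t u + dist t v := by
      have := dist_triangle_left u v t
      exact this
    have h5 : dist t v / 2 ≤ dist t u := by nlinarith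
    have h6 : dist t v / 2 ≤ min (dist t u) (dist t v) := le_min h5 (by linarith)
    have h7 : c * (dist t v / 2) ≤ c * min (dist t u) (dist t v) :=
      mul_le_mul_of_nonneg_left h6 hc0.le
    have h8 : L - dist t v + c / 2 * dist t v ≤ dist t u := by linarith
    refine ⟨h8, by nlinarith, ?_⟩
    nlinarith
  obtain ⟨hp1, -, hp3⟩ := key1 p ha
  obtain ⟨hq1, -, hq3⟩ := key2 q hb
  have e1 : bump L (c / 8) u p = L / 2 - (1 - c / 8) * dist p u :=
    max_eq_left (by linarith)
  have e2 : bump L (c / 8) v p = 0 := max_eq_right (by linarith)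
  have e3 : bump L (c / 8) v q = L / 2 - (1 - c / 8) * dist q v :=
    max_eq_left (by linarith)
  have e4 : bump L (c / 8) u q = 0 := max_eq_right (by linarith)
  unfold dbl
  rw [e1, e2, e3, e4]
  have h9 : dist p v ≤ dist p q + dist q v := dist_triangle _ _ _
  have h10 : dist q u ≤ dist p q + dist p u := by
    have := dist_triangle q p u
    rwa [dist_comm q p] at this
  linarith

theorem slice_small {u v : M} (huv : u ≠ v) {c : ℝ} (hc0 : 0 < c) (hc1 : c ≤ 1)
    (hZ : ∀ w, w ≠ u → w ≠ v →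
      dist u v + c * min (dist u w) (dist w v) ≤ dist u w + dist w v) {p q : M} (hpq : p ≠ q)
    {β : ℝ} (hβ0 : 0 ≤ β) (hβ : β ≤ c / 16)
    (h : (1 - β) * dist p q ≤ dbl (dist u v) (c / 8) u v p - dbl (dist u v) (c / 8) u v q) :
    dist p u + dist q v ≤ 16 * β / c * dist u v := by
  have hd : 0 < dist p q := dist_pos.2 hpq
  rcases dbl_slope_of_not_Z huv hc0 hc1 hZ p q with h1 | h1
  · exfalso
    nlinarith
  · have h2 : dist p q ≤ dist p u + dist u v + dist q v := by
      have := dist_triangle4 p u v q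
      rwa [dist_comm v q] at this
    have h3 : c / 8 * (dist p u + dist q v) ≤ β * dist p q := by linarith
    have h4 : β * dist p q ≤ β * (dist p u + dist u v + dist q v) :=
      mul_le_mul_of_nonneg_left h2 hβ0
    have hs : 0 ≤ dist p u + dist q v := add_nonneg dist_nonneg dist_nonneg
    have h5 : β * (dist p u + dist q v) ≤ c / 16 * (dist p u + dist q v) :=
      mul_le_mul_of_nonneg_right hβ hs
    rw [div_mul_eq_mul_div, le_div_iff₀ hc0]
    nlinarith

theorem norm_peak_le_one {u v : M} (huv : u ≠ v) {c : ℝ} (hc0 : 0 < c) (hc1 : c ≤ 1)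
    (hτ : c / 8 ≤ 1)
    (hZ : ∀ w, w ≠ u → w ≠ v →
      dist u v + c * min (dist u w) (dist w v) ≤ dist u w + dist w v) :
    ‖peak o (c / 8) hτ u v‖ ≤ 1 := by
  have key : ∀ p q : M, dbl (dist u v) (c / 8) u v p - dbl (dist u v) (c / 8) u v q
      ≤ 1 * dist p q := by
    intro p q
    have h0 : 0 ≤ dist p q := dist_nonneg
    have h1 : 0 ≤ dist p u + dist q v := add_nonneg dist_nonneg dist_nonneg
    rcases dbl_slope_of_not_Z huv hc0 hc1 hZ p q with h | h <;> nlinarith
  refine norm_le_of _ zero_le_one fun p q => ?_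
  rw [peak_sub, abs_le]
  constructor
  · have := key q p
    rw [dist_comm q p] at this
    linarith
  · exact key p q

/-- A function attaining its norm at a pair failing (Z), plus a small peak, strongly exposes. -/
theorem stronglyExposes_of_not_Z {u v : M} (huv : u ≠ v) {c : ℝ} (hc0 : 0 < c) (hc1 : c ≤ 1)
    (hτ : c / 8 ≤ 1)
    (hZ : ∀ w, w ≠ u → w ≠ v →
      dist u v + c * min (dist u w) (dist w v) ≤ dist u w + dist w v)
    (G : LipZero M o) (hG : G.1 u - G.1 v = ‖G‖ * dist u v) {δ : ℝ} (hδ : 0 < δ) :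
    StronglyExposesAt (G + δ • peak o (c / 8) hτ u v) u v := by
  have hL : 0 < dist u v := dist_pos.2 huv
  set P := peak o (c / 8) hτ u v with hP
  set F := G + δ • P with hF
  have hPn : ‖P‖ ≤ 1 := norm_peak_le_one huv hc0 hc1 hτ hZ
  have hFval : ∀ p q : M, F.1 p - F.1 q = (G.1 p - G.1 q) + δ * (P.1 p - P.1 q) := by
    intro p q
    change (G.1 p + δ * P.1 p) - (G.1 q + δ * P.1 q) = _
    ring
  have hPuv : P.1 u - P.1 v = dist u v := by
    rw [hP, peak_sub]
    exact dbl_diff (by linarith)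
  have hFnorm : ‖G‖ + δ ≤ ‖F‖ := by
    have h1 := sub_le_norm F u v
    rw [hFval, hG, hPuv] at h1
    by_contra hcon
    push Not at hcon
    nlinarith
  -- the main convergence claim
  have claim : ∀ p q : ℕ → M, (∀ n, p n ≠ q n) →
      Tendsto (fun n => pairing (molecule (p n) (q n)) F) atTop (𝓝 ‖F‖) →
      Tendsto (fun n => (molecule (p n) (q n) : LipFree M o)) atTop (𝓝 (molecule u v)) := by
    intro p q hpq hlim
    rw [Metric.tendsto_nhds]
    intro ε hε
    -- choose the slice depth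
    set β := min (c / 16) (ε * c / 64) with hβdef
    have hβ0 : 0 < β := lt_min (by linarith) (by positivity)
    have hβ1 : β ≤ c / 16 := min_le_left _ _
    have hβ2 : β ≤ ε * c / 64 := min_le_right _ _
    have hev : ∀ᶠ n in atTop, ‖F‖ - δ * β < pairing (molecule (p n) (q n)) F := by
      apply (tendsto_order.1 hlim).1
      have : 0 < δ * β := mul_pos hδ hβ0
      linarith
    filter_upwards [hev] with n hn
    have hd : 0 < dist (p n) (q n) := dist_pos.2 (hpq n)
    rw [molecule_apply, hFval, lt_inv_mul_iff₀ hd] at hn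
    have h1 := sub_le_norm G (p n) (q n)
    have h2 : (1 - β) * dist (p n) (q n) ≤ P.1 (p n) - P.1 (q n) := by
      by_contra hcon
      push Not at hcon
      have h3 : δ * (P.1 (p n) - P.1 (q n)) < δ * ((1 - β) * dist (p n) (q n)) :=
        mul_lt_mul_of_pos_left hcon hδ
      have h4 : (‖G‖ + δ - δ * β) * dist (p n) (q n) ≤ (‖F‖ - δ * β) * dist (p n) (q n) :=
        mul_le_mul_of_nonneg_right (by linarith) hd.le
      nlinarith
    rw [hP, peak_sub] at h2
    have h5 := slice_small huv hc0 hc1 hZ (hpq n) hβ0.le hβ1 h2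
    calc dist (molecule (p n) (q n) : LipFree M o) (molecule u v)
        = ‖(molecule (p n) (q n) : LipFree M o) - molecule u v‖ := dist_eq_norm _ _
      _ ≤ 2 * (dist (p n) u + dist (q n) v) / dist u v := norm_molecule_sub_le (hpq n) huv
      _ ≤ 2 * (16 * β / c * dist u v) / dist u v := by gcongr
      _ = 32 * β / c := by field_simp; ring
      _ ≤ 32 * (ε * c / 64) / c := by gcongr
      _ = ε / 2 := by field_simp; ring
      _ < ε := by linarith
  intro p q hpq hlim
  by_cases hfr : ∃ᶠ n in atTop, 0 ≤ pairing (molecule (p n) (q n)) F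
  · obtain ⟨φ, hφ, hφ2⟩ := extraction_of_frequently_atTop hfr
    refine ⟨φ, hφ, Or.inl ?_⟩
    refine claim (fun n => p (φ n)) (fun n => q (φ n)) (fun n => hpq _) ?_
    refine (hlim.comp hφ.tendsto_atTop).congr fun n => ?_
    exact abs_of_nonneg (hφ2 n)
  · rw [not_frequently] at hfr
    obtain ⟨φ, hφ, hφ2⟩ := extraction_of_eventually_atTop hfr
    refine ⟨φ, hφ, Or.inr ?_⟩
    have h1 : Tendsto (fun n => (molecule (q (φ n)) (p (φ n)) : LipFree M o)) atTop
        (𝓝 (molecule u v)) := by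
      refine claim (fun n => q (φ n)) (fun n => p (φ n)) (fun n => (hpq _).symm) ?_
      refine (hlim.comp hφ.tendsto_atTop).congr fun n => ?_
      have h2 := hφ2 n
      push Not at h2
      change |pairing (molecule (p (φ n)) (q (φ n))) F| = _
      rw [abs_of_neg h2, molecule_swap (q (φ n)) (p (φ n))]
      rfl
    refine (h1.neg).congr fun n => ?_
    rw [molecule_swap (q (φ n)) (p (φ n)), neg_neg]

/-- If `G` attains its norm at `(u, v)` and is not in the closure of `LipSE(M)`, then the pair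
`(u, v)` has property (Z). -/
theorem exists_between {u v : M} (huv : u ≠ v) (G : LipZero M o)
    (hG : G.1 u - G.1 v = ‖G‖ * dist u v) (hcl : G ∉ closure (LipSE M o)) {c : ℝ} (hc : 0 < c) :
    ∃ w, w ≠ u ∧ w ≠ v ∧ dist u w + dist w v < dist u v + c * min (dist u w) (dist w v) := by
  by_contra hcon
  push Not at hcon
  apply hcl
  have hc' : 0 < min c 1 := lt_min hc one_pos
  have hc1 : min c 1 ≤ 1 := min_le_right _ _
  have hτ : min c 1 / 8 ≤ 1 := by linarith
  have hZ : ∀ w, w ≠ u → w ≠ v →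
      dist u v + min c 1 * min (dist u w) (dist w v) ≤ dist u w + dist w v := by
    intro w h1 h2
    have h3 := hcon w h1 h2
    have h4 : min c 1 * min (dist u w) (dist w v) ≤ c * min (dist u w) (dist w v) :=
      mul_le_mul_of_nonneg_right (min_le_left _ _) (le_min dist_nonneg dist_nonneg)
    linarith
  rw [Metric.mem_closure_iff]
  intro ε hε
  refine ⟨G + (ε / 2) • peak o (min c 1 / 8) hτ u v,
    ⟨u, v, huv, stronglyExposes_of_not_Z huv hc' hc1 hτ hZ G hG (by positivity)⟩, ?_⟩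
  rw [dist_eq_norm]
  have h5 : G - (G + (ε / 2) • peak o (min c 1 / 8) hτ u v)
      = -((ε / 2) • peak o (min c 1 / 8) hτ u v) := by abel
  rw [h5, norm_neg, norm_smul, Real.norm_eq_abs, abs_of_pos (by positivity)]
  have h6 := norm_peak_le_one (o := o) huv hc' hc1 hτ hZ
  nlinarith

theorem SNA_oriented {f : LipZero M o} (hf : f ∈ SNA M o) :
    ∃ u v : M, u ≠ v ∧ f.1 u - f.1 v = ‖f‖ * dist u v := by
  obtain ⟨p, q, hpq, h⟩ := hf
  have hd : 0 < dist p q := dist_pos.2 hpq
  rw [eq_div_iff hd.ne'] at h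
  rcases le_total 0 (f.1 p - f.1 q) with h1 | h1
  · exact ⟨p, q, hpq, by rw [h, abs_of_nonneg h1]⟩
  · refine ⟨q, p, hpq.symm, ?_⟩
    rw [dist_comm q p, h, abs_of_nonpos h1]
    ring

/-- Near-midpoints of almost norming pairs. -/
theorem exists_near_midpoint (hSNA : Dense (SNA M o)) (G : LipZero M o) {ρ : ℝ} (hρ : 0 < ρ)
    (hball : ∀ H : LipZero M o, ‖H - G‖ < ρ → H ∉ closure (LipSE M o))
    {x y : M} (hxy : x ≠ y) {ε τ : ℝ} (hτ0 : 0 < τ) (hτ : τ < 1 / 2)
    (hετ : ε < τ * (ρ / 4)) (hG : (‖G‖ - ε) * dist x y ≤ G.1 x - G.1 y) :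
    ∃ t : M, (1 - τ) * dist t x < dist x y / 2 ∧ (1 - τ) * dist t y < dist x y / 2 := by
  by_contra hcon
  push Not at hcon
  have hτ1 : τ ≤ 1 := by linarith
  have hd : 0 < dist x y := dist_pos.2 hxy
  have hsep : ∀ t, bump (dist x y) τ x t = 0 ∨ bump (dist x y) τ y t = 0 := by
    intro t
    by_cases h : (1 - τ) * dist t x < dist x y / 2
    · right
      exact max_eq_right (by linarith [hcon t h])
    · left
      push Not at h
      exact max_eq_right (by linarith)
  set δ := ρ / 4 with hδ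
  have hδ0 : 0 < δ := by positivity
  set P := peak o τ hτ1 x y with hP
  have hPn : ‖P‖ ≤ 2 := norm_peak_le hτ0.le hτ1 x y
  set H := G + δ • P with hH
  have hgap : 0 < τ * δ - ε := by linarith
  set η := min (ρ / 4) ((τ * δ - ε) / 4) with hη
  have hη0 : 0 < η := lt_min (by positivity) (by positivity)
  have hη1 : η ≤ ρ / 4 := min_le_left _ _
  have hη2 : η ≤ (τ * δ - ε) / 4 := min_le_right _ _
  obtain ⟨G', hG'SNA, hG'⟩ := hSNA.exists_dist_lt H hη0
  rw [dist_eq_norm] at hG'
  have hG'cl : G' ∉ closure (LipSE M o) := by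
    apply hball
    have e1 : G' - G = -(H - G') + δ • P := by
      rw [hH]; abel
    rw [e1]
    calc ‖-(H - G') + δ • P‖ ≤ ‖-(H - G')‖ + ‖δ • P‖ := norm_add_le _ _
      _ = ‖H - G'‖ + δ * ‖P‖ := by
          rw [norm_neg, norm_smul, Real.norm_eq_abs, abs_of_pos hδ0]
      _ < ρ := by nlinarith
  obtain ⟨u, v, huv, hatt⟩ := SNA_oriented hG'SNA
  have hμ0 : 0 ≤ ‖G'‖ := norm_nonneg _
  -- values
  have hHval : ∀ a b : M, H.1 a - H.1 b = (G.1 a - G.1 b) + δ * (P.1 a - P.1 b) := by
    intro a b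
    change (G.1 a + δ * P.1 a) - (G.1 b + δ * P.1 b) = _
    ring
  have hclose : ∀ a b : M, |(H.1 a - H.1 b) - (G'.1 a - G'.1 b)| ≤ η * dist a b := by
    intro a b
    have h1 := abs_sub_le (H - G') a b
    have h2 : (H - G').1 a - (H - G').1 b = (H.1 a - H.1 b) - (G'.1 a - G'.1 b) := by
      change (H.1 a - G'.1 a) - (H.1 b - G'.1 b) = _
      ring
    rw [h2] at h1
    exact h1.trans (mul_le_mul_of_nonneg_right hG'.le dist_nonneg)
  have hPxy : P.1 x - P.1 y = dist x y := by
    rw [hP, peak_sub]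
    exact dbl_diff hτ
  have hμ : ‖G‖ - ε + δ - η ≤ ‖G'‖ := by
    have h1 := sub_le_norm G' x y
    have h2 := (abs_le.1 (hclose x y)).2
    rw [hHval, hPxy] at h2
    by_contra hc
    push Not at hc
    have h3 : ‖G'‖ * dist x y < (‖G‖ - ε + δ - η) * dist x y :=
      mul_lt_mul_of_pos_right hc hd
    linarith
  set ε' := (τ * δ - ε) / (4 * (‖G'‖ + 1)) with hε'
  have hε'0 : 0 < ε' := by positivity
  have hε'1 : ‖G'‖ * ε' ≤ (τ * δ - ε) / 4 := by
    rw [hε']
    have h1 : ‖G'‖ * ((τ * δ - ε) / (4 * (‖G'‖ + 1)))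
        = (τ * δ - ε) / 4 * (‖G'‖ / (‖G'‖ + 1)) := by field_simp
    rw [h1]
    have h2 : ‖G'‖ / (‖G'‖ + 1) ≤ 1 := by
      rw [div_le_one (by positivity)]; linarith
    calc (τ * δ - ε) / 4 * (‖G'‖ / (‖G'‖ + 1)) ≤ (τ * δ - ε) / 4 * 1 :=
          mul_le_mul_of_nonneg_left h2 (by positivity)
      _ = _ := mul_one _
  obtain ⟨z, hzu, hzv, hz⟩ := exists_between huv G' hatt hG'cl hε'0
  have hduz : 0 < dist u z := dist_pos.2 hzu.symm
  have hdzv : 0 < dist z v := dist_pos.2 hzv
  have hz1 : dist u z + dist z v < dist u v + ε' * dist u z :=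
    hz.trans_le (by gcongr; exact min_le_left _ _)
  have hz2 : dist u z + dist z v < dist u v + ε' * dist z v :=
    hz.trans_le (by gcongr; exact min_le_right _ _)
  have hs1 : (‖G'‖ - ‖G'‖ * ε') * dist u z ≤ G'.1 u - G'.1 z := by
    have h1 := sub_le_norm G' z v
    have h2 : ‖G'‖ * (dist u z + dist z v) ≤ ‖G'‖ * (dist u v + ε' * dist u z) :=
      mul_le_mul_of_nonneg_left hz1.le hμ0
    linarith
  have hs2 : (‖G'‖ - ‖G'‖ * ε') * dist z v ≤ G'.1 z - G'.1 v := by
    have h1 := sub_le_norm G' u z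
    have h2 : ‖G'‖ * (dist u z + dist z v) ≤ ‖G'‖ * (dist u v + ε' * dist z v) :=
      mul_le_mul_of_nonneg_left hz2.le hμ0
    linarith
  have hkey : (1 - τ) * δ < ‖G'‖ - ‖G'‖ * ε' - η - ‖G‖ := by
    have e2 : (1 - τ) * δ = δ - τ * δ := by ring
    linarith
  have hP1 : (1 - τ) * dist u z < P.1 u - P.1 z := by
    have h1 := (abs_le.1 (hclose u z)).1
    rw [hHval] at h1
    have h2 := sub_le_norm G u z
    have h3 : (1 - τ) * δ * dist u z < (‖G'‖ - ‖G'‖ * ε' - η - ‖G‖) * dist u z :=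
      mul_lt_mul_of_pos_right hkey hduz
    by_contra hc
    push Not at hc
    have h4 : δ * (P.1 u - P.1 z) ≤ δ * ((1 - τ) * dist u z) :=
      mul_le_mul_of_nonneg_left hc hδ0.le
    linarith
  have hP2 : (1 - τ) * dist z v < P.1 z - P.1 v := by
    have h1 := (abs_le.1 (hclose z v)).1
    rw [hHval] at h1
    have h2 := sub_le_norm G z v
    have h3 : (1 - τ) * δ * dist z v < (‖G'‖ - ‖G'‖ * ε' - η - ‖G‖) * dist z v :=
      mul_lt_mul_of_pos_right hkey hdzv
    by_contra hc
    push Not at hc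
    have h4 : δ * (P.1 z - P.1 v) ≤ δ * ((1 - τ) * dist z v) :=
      mul_le_mul_of_nonneg_left hc hδ0.le
    linarith
  rw [hP, peak_sub] at hP1 hP2
  rcases hsep z with h | h
  · exact absurd (dbl_sub_le_right hτ1 x y z v h) (not_le.2 hP2)
  · exact absurd (dbl_sub_le_left hτ1 x y u z h) (not_le.2 hP1)

/-! ### The auxiliary function of one real variable -/

open MeasureTheory in
theorem exists_psi {α β δ : ℝ} (hαβ : α < β) (hδ0 : 0 < δ) :
    ∃ ψ : ℝ → ℝ, ψ 0 = 0 ∧
      (∀ s t, s ≤ t → (1 - δ) * (t - s) ≤ ψ t - ψ s ∧ ψ t - ψ s ≤ (1 + δ) * (t - s)) ∧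
      (1 + δ / 2) * (β - α) ≤ ψ β - ψ α ∧
      (∀ a b, a < b → ∃ q, a < q ∧ q < b ∧ ∃ r, 0 < r ∧
        ∀ s t, q - r < s → s ≤ t → t < q + r → ψ t - ψ s ≤ (1 - δ) * (t - s)) := by
  -- an open set containing the rationals, of small measure
  have hκ : 0 < (β - α) / 4 := by linarith
  have hQ : volume (Set.range ((↑) : ℚ → ℝ)) = 0 := (Set.countable_range _).measure_zero _
  obtain ⟨O, hQO, hO, hOm⟩ := (Set.range ((↑) : ℚ → ℝ)).exists_isOpen_lt_of_lt
    (ENNReal.ofReal ((β - α) / 4)) (by rw [hQ]; exact ENNReal.ofReal_pos.2 hκ)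
  set f : ℝ → ℝ := O.indicator (fun _ => (1 : ℝ)) with hf
  have hint : ∀ a b : ℝ, IntervalIntegrable f volume a b := by
    intro a b
    have h1 : IntervalIntegrable (fun _ : ℝ => (1 : ℝ)) volume a b := intervalIntegrable_const
    rw [intervalIntegrable_iff] at h1 ⊢
    exact h1.indicator hO.measurableSet
  have hf0 : ∀ x, 0 ≤ f x := fun x => Set.indicator_nonneg (fun _ _ => zero_le_one) x
  have hf1 : ∀ x, f x ≤ 1 := by
    intro x
    by_cases h : x ∈ O
    · simp [hf, h]
    · simp [hf, h]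
  have hsub : ∀ s t : ℝ, (∫ x in (0 : ℝ)..t, f x) - (∫ x in (0 : ℝ)..s, f x) = ∫ x in s..t, f x :=
    fun s t => intervalIntegral.integral_interval_sub_left (hint 0 t) (hint 0 s)
  have hnn : ∀ s t : ℝ, s ≤ t → 0 ≤ ∫ x in s..t, f x := fun s t hst =>
    intervalIntegral.integral_nonneg hst fun x _ => hf0 x
  have hle : ∀ s t : ℝ, s ≤ t → (∫ x in s..t, f x) ≤ t - s := by
    intro s t hst
    have h1 : (∫ x in s..t, f x) ≤ ∫ _ in s..t, (1 : ℝ) :=
      intervalIntegral.integral_mono_on hst (hint s t) intervalIntegrable_const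
        fun x _ => hf1 x
    simpa using h1
  refine ⟨fun t => (1 + δ) * t - 2 * δ * ∫ x in (0 : ℝ)..t, f x, by simp, ?_, ?_, ?_⟩
  · intro s t hst
    have h1 := hsub s t
    have h2 := hnn s t hst
    have h3 := hle s t hst
    constructor <;> simp only <;> nlinarith
  · have h1 := hsub α β
    have h4 : (∫ x in α..β, f x) ≤ (β - α) / 4 := by
      rw [intervalIntegral.integral_of_le hαβ.le, hf,
        setIntegral_indicator hO.measurableSet, setIntegral_const, smul_eq_mul, mul_one]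
      rw [Measure.real]
      refine ENNReal.toReal_le_of_le_ofReal hκ.le ?_
      exact (measure_mono Set.inter_subset_right).trans hOm.le
    simp only
    nlinarith
  · intro a b hab
    obtain ⟨q, haq, hqb⟩ := exists_rat_btwn hab
    refine ⟨q, haq, hqb, ?_⟩
    have hqO : (q : ℝ) ∈ O := hQO ⟨q, rfl⟩
    obtain ⟨r, hr, hball⟩ := Metric.isOpen_iff.1 hO q hqO
    refine ⟨r, hr, fun s t hs hst ht => ?_⟩
    have h1 := hsub s t
    have h5 : (∫ x in s..t, f x) = t - s := by
      have h6 : (∫ x in s..t, f x) = ∫ _ in s..t, (1 : ℝ) := by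
        refine intervalIntegral.integral_congr fun x hx => ?_
        rw [Set.uIcc_of_le hst] at hx
        have hxO : x ∈ O := hball (by
          rw [Metric.mem_ball, Real.dist_eq, abs_lt]
          constructor <;> linarith [hx.1, hx.2])
        simp [hf, hxO]
      rw [h6]; simp
    simp only
    nlinarith


/-! ### The main implication -/

/-- Bisection step: small pairs at which `G` almost attains its norm and which straddle `q`. -/
theorem bisection (hSNA : Dense (SNA M o)) (G : LipZero M o) {ρ : ℝ} (hρ : 0 < ρ)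
    (hball : ∀ H : LipZero M o, ‖H - G‖ < ρ → H ∉ closure (LipSE M o))
    {x y : M} (hxy : x ≠ y) (hG : G.1 x - G.1 y = ‖G‖ * dist x y)
    (φ : M → ℝ) {q : ℝ} (hy : φ y ≤ q) (hx : q ≤ φ x) (k : ℕ) :
    ∀ ε : ℝ, 0 < ε → ∃ a b : M, a ≠ b ∧ φ b ≤ q ∧ q ≤ φ a ∧
      (‖G‖ - ε) * dist a b ≤ G.1 a - G.1 b ∧ dist a b ≤ (3 / 4) ^ k * dist x y := by
  induction k with
  | zero =>
    intro ε hε
    refine ⟨x, y, hxy, hy, hx, ?_, by simp⟩
    rw [hG]
    have : 0 ≤ dist x y := dist_nonneg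
    nlinarith
  | succ k ih =>
    intro ε hε
    have hμ : 0 ≤ ‖G‖ := norm_nonneg _
    -- parameters
    set τ := min (1 / 4) (ε / (16 * (‖G‖ + 1))) with hτdef
    have hτ0 : 0 < τ := lt_min (by norm_num) (by positivity)
    have hτ1 : τ ≤ 1 / 4 := min_le_left _ _
    have hτ2 : τ ≤ ε / (16 * (‖G‖ + 1)) := min_le_right _ _
    have hτ3 : τ * ‖G‖ ≤ ε / 16 := by
      rw [le_div_iff₀ (by positivity)] at hτ2
      nlinarith
    set ε₁ := min (ε / 16) (τ * (ρ / 4) / 2) with hε₁def
    have hp : 0 < τ * (ρ / 4) := by positivity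
    have hε₁0 : 0 < ε₁ := lt_min (by positivity) (by positivity)
    have hε₁1 : ε₁ ≤ ε / 16 := min_le_left _ _
    have hε₁2 : ε₁ ≤ τ * (ρ / 4) / 2 := min_le_right _ _
    obtain ⟨a, b, hab, hb, ha, hGab, hdab⟩ := ih ε₁ hε₁0
    have hd : 0 < dist a b := dist_pos.2 hab
    obtain ⟨t, hta, htb⟩ := exists_near_midpoint hSNA G hρ hball hab hτ0 (by linarith)
      (by linarith) hGab
    -- distances
    have h1 : dist a b ≤ dist t a + dist t b := dist_triangle_left a b t
    have hta' : dist t a ≤ (1 / 2 + τ) * dist a b := by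
      have h0 : 0 ≤ dist t a := dist_nonneg
      have e : (1 / 2 + τ) * (1 - τ) = 1 / 2 + τ * (1 / 2 - τ) := by ring
      have e2 : dist a b / 2 ≤ (1 / 2 + τ) * (1 - τ) * dist a b := by
        rw [e]
        have : 0 ≤ τ * (1 / 2 - τ) := mul_nonneg hτ0.le (by linarith)
        nlinarith
      by_contra hc
      push Not at hc
      have : (1 - τ) * ((1 / 2 + τ) * dist a b) < (1 - τ) * dist t a :=
        mul_lt_mul_of_pos_left hc (by linarith)
      linarith
    have htb' : dist t b ≤ (1 / 2 + τ) * dist a b := by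
      have h0 : 0 ≤ dist t b := dist_nonneg
      have e : (1 / 2 + τ) * (1 - τ) = 1 / 2 + τ * (1 / 2 - τ) := by ring
      have e2 : dist a b / 2 ≤ (1 / 2 + τ) * (1 - τ) * dist a b := by
        rw [e]
        have : 0 ≤ τ * (1 / 2 - τ) := mul_nonneg hτ0.le (by linarith)
        nlinarith
      by_contra hc
      push Not at hc
      have : (1 - τ) * ((1 / 2 + τ) * dist a b) < (1 - τ) * dist t b :=
        mul_lt_mul_of_pos_left hc (by linarith)
      linarith
    have hτd : τ * dist a b ≤ 1 / 4 * dist a b := mul_le_mul_of_nonneg_right hτ1 hd.le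
    have hta4 : dist a b / 4 ≤ dist t a := by linarith
    have htb4 : dist a b / 4 ≤ dist t b := by linarith
    have h34a : dist t a ≤ (3 / 4) ^ (k + 1) * dist x y := by
      rw [pow_succ]; nlinarith
    have h34b : dist t b ≤ (3 / 4) ^ (k + 1) * dist x y := by
      rw [pow_succ]; nlinarith
    -- total excess
    have hex : ‖G‖ * (dist t a + dist t b) ≤ ‖G‖ * dist a b + ε / 8 * dist a b := by
      have h5 : ‖G‖ * (dist t a + dist t b) ≤ ‖G‖ * ((1 + 2 * τ) * dist a b) :=
        mul_le_mul_of_nonneg_left (by linarith) hμ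
      have h6 : τ * ‖G‖ * dist a b ≤ ε / 16 * dist a b :=
        mul_le_mul_of_nonneg_right hτ3 hd.le
      linarith
    have hε₁d : ε₁ * dist a b ≤ ε / 16 * dist a b := mul_le_mul_of_nonneg_right hε₁1 hd.le
    have hεd : 0 < ε * dist a b := mul_pos hε hd
    rcases le_total q (φ t) with hqt | hqt
    · -- use the pair (t, b)
      refine ⟨t, b, ?_, hb, hqt, ?_, h34b⟩
      · intro h
        rw [h, dist_self] at htb4
        linarith
      · have h7 := sub_le_norm G a t
        rw [dist_comm a t] at h7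
        have h8 : ε * (dist a b / 4) ≤ ε * dist t b := mul_le_mul_of_nonneg_left htb4 hε.le
        linarith
    · refine ⟨a, t, ?_, hqt, ha, ?_, ?_⟩
      · intro h
        rw [h, dist_self] at hta4
        rw [h] at hd
        linarith
      · have h7 := sub_le_norm G t b
        have h8 : ε * (dist a b / 4) ≤ ε * dist t a := mul_le_mul_of_nonneg_left hta4 hε.le
        rw [dist_comm a t]
        linarith
      · rw [dist_comm a t]; exact h34a

theorem dense_LipSE_of_dense_SNA (hSNA : Dense (SNA M o)) : Dense (LipSE M o) := by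
  by_contra hnd
  set U : Set (LipZero M o) := (closure (LipSE M o))ᶜ with hU
  have hUo : IsOpen U := isClosed_closure.isOpen_compl
  have hUne : U.Nonempty := by
    rw [hU, Set.nonempty_compl]
    intro h
    exact hnd (dense_iff_closure_eq.2 h)
  obtain ⟨f₀, p₀, q₀, hpq₀, -⟩ : (SNA M o).Nonempty := hSNA.nonempty
  have hnt : Nontrivial (LipZero M o) := by
    refine ⟨⟨0, peak o 0 (by norm_num) p₀ q₀, ?_⟩⟩
    intro h
    have h1 : (peak o 0 (by norm_num) p₀ q₀).1 p₀ - (peak o 0 (by norm_num) p₀ q₀).1 q₀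
        = dist p₀ q₀ := by
      rw [peak_sub]; exact dbl_diff (by norm_num)
    rw [← h, coe_zero] at h1
    simp only [Pi.zero_apply, sub_zero] at h1
    exact (dist_pos.2 hpq₀).ne h1
  obtain ⟨g, hgU, hg0⟩ :=
    (dense_compl_singleton (0 : LipZero M o)).inter_open_nonempty U hUo hUne
  have hg0' : g ≠ 0 := hg0
  have hl : 0 < ‖g‖ := norm_pos_iff.2 hg0'
  obtain ⟨r, hr, hball⟩ := Metric.isOpen_iff.1 hUo g hgU
  -- parameters
  set δ := min (1 / 2) (r / (4 * ‖g‖)) with hδ
  have hδ0 : 0 < δ := lt_min (by norm_num) (by positivity)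
  have hδ1 : δ ≤ 1 / 2 := min_le_left _ _
  have hδ2 : δ * ‖g‖ ≤ r / 4 := by
    have h1 : δ ≤ r / (4 * ‖g‖) := min_le_right _ _
    rw [le_div_iff₀ (by positivity)] at h1
    linarith
  obtain ⟨x₀, y₀, hxy₀, hgxy⟩ := exists_near_norm g (c := (1 - δ / 8) * ‖g‖)
    (mul_nonneg (by linarith) hl.le) (by nlinarith)
  have hd₀ : 0 < dist x₀ y₀ := dist_pos.2 hxy₀
  have hαβ : g.1 y₀ < g.1 x₀ := by
    have : 0 ≤ (1 - δ / 8) * ‖g‖ * dist x₀ y₀ :=
      mul_nonneg (mul_nonneg (by linarith) hl.le) hd₀.le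
    linarith
  obtain ⟨ψ, hψ0, hψ, hψ1, hψ2⟩ := exists_psi hαβ hδ0
  have hψabs : ∀ s t, |ψ t - ψ s| ≤ (1 + δ) * |t - s| := by
    intro s t
    rcases le_total s t with h | h
    · obtain ⟨h1, h2⟩ := hψ s t h
      have h3 : 0 ≤ (1 - δ) * (t - s) := mul_nonneg (by linarith) (by linarith)
      rw [abs_of_nonneg (by linarith : (0 : ℝ) ≤ t - s), abs_of_nonneg (by linarith)]
      exact h2
    · obtain ⟨h1, h2⟩ := hψ t s h
      have h3 : 0 ≤ (1 - δ) * (s - t) := mul_nonneg (by linarith) (by linarith)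
      rw [abs_of_nonpos (by linarith : t - s ≤ 0), abs_of_nonpos (by linarith)]
      linarith
  have hψid : ∀ s t, |(ψ t - t) - (ψ s - s)| ≤ δ * |t - s| := by
    intro s t
    rcases le_total s t with h | h
    · obtain ⟨h1, h2⟩ := hψ s t h
      rw [abs_of_nonneg (by linarith : (0 : ℝ) ≤ t - s), abs_le]
      constructor <;> linarith
    · obtain ⟨h1, h2⟩ := hψ t s h
      rw [abs_of_nonpos (by linarith : t - s ≤ 0), abs_le]
      constructor <;> linarith
  -- the function F = ψ ∘ g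
  have hFlip : ∃ K : NNReal, LipschitzWith K (fun t => ψ (g.1 t)) := by
    refine ⟨Real.toNNReal ((1 + δ) * ‖g‖), LipschitzWith.of_dist_le_mul fun a b => ?_⟩
    rw [Real.dist_eq, Real.coe_toNNReal _ (by positivity)]
    have h1 := hψabs (g.1 b) (g.1 a)
    have h2 := abs_sub_le g a b
    nlinarith
  set F : LipZero M o := ⟨fun t => ψ (g.1 t), hFlip, by
    change ψ (g.1 o) = 0
    rw [g.2.2, hψ0]⟩ with hF
  have hFv : ∀ a b : M, F.1 a - F.1 b = ψ (g.1 a) - ψ (g.1 b) := fun a b => rfl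
  have hFg : ‖F - g‖ ≤ δ * ‖g‖ := by
    refine norm_le_of _ (by positivity) fun a b => ?_
    have h1 := hψid (g.1 b) (g.1 a)
    have h2 := abs_sub_le g a b
    have h3 : (F - g).1 a - (F - g).1 b = (ψ (g.1 a) - g.1 a) - (ψ (g.1 b) - g.1 b) := rfl
    rw [h3]
    nlinarith
  have hFn : (1 + δ / 4) * ‖g‖ ≤ ‖F‖ := by
    have h1 := sub_le_norm F x₀ y₀
    rw [hFv] at h1
    have h2 : (1 + δ / 2) * ((1 - δ / 8) * ‖g‖ * dist x₀ y₀) ≤ (1 + δ / 2) * (g.1 x₀ - g.1 y₀) :=
      mul_le_mul_of_nonneg_left hgxy.le (by linarith)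
    have h3 : (1 + δ / 4) * (‖g‖ * dist x₀ y₀)
        ≤ (1 + δ / 2) * (1 - δ / 8) * (‖g‖ * dist x₀ y₀) :=
      mul_le_mul_of_nonneg_right (by nlinarith) (by positivity)
    by_contra hc
    push Not at hc
    have h4 : ‖F‖ * dist x₀ y₀ < (1 + δ / 4) * ‖g‖ * dist x₀ y₀ :=
      mul_lt_mul_of_pos_right hc hd₀
    linarith
  have hη0 : 0 < δ * ‖g‖ / 16 := by positivity
  obtain ⟨G, hGS, hFG⟩ := hSNA.exists_dist_lt F hη0
  rw [dist_eq_norm] at hFG
  have hGg : ‖G - g‖ < r / 2 := by
    have e : G - g = -(F - G) + (F - g) := by abel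
    rw [e]
    calc ‖-(F - G) + (F - g)‖ ≤ ‖-(F - G)‖ + ‖F - g‖ := norm_add_le _ _
      _ = ‖F - G‖ + ‖F - g‖ := by rw [norm_neg]
      _ < r / 2 := by linarith
  have hballG : ∀ H : LipZero M o, ‖H - G‖ < r / 2 → H ∉ closure (LipSE M o) := by
    intro H hH
    apply hball
    rw [Metric.mem_ball, dist_eq_norm]
    calc ‖H - g‖ = ‖(H - G) + (G - g)‖ := by congr 1; abel
      _ ≤ ‖H - G‖ + ‖G - g‖ := norm_add_le _ _
      _ < r := by linarith
  obtain ⟨x, y, hxy, hatt⟩ := SNA_oriented hGS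
  have hd : 0 < dist x y := dist_pos.2 hxy
  have hμ : (1 + 3 * δ / 16) * ‖g‖ ≤ ‖G‖ := by
    have h1 : ‖F‖ ≤ ‖F - G‖ + ‖G‖ := by
      calc ‖F‖ = ‖(F - G) + G‖ := by congr 1; abel
        _ ≤ _ := norm_add_le _ _
    linarith
  have hFGv : ∀ a b : M, G.1 a - G.1 b - δ * ‖g‖ / 16 * dist a b ≤ ψ (g.1 a) - ψ (g.1 b) := by
    intro a b
    have h1 := (abs_le.1 (abs_sub_le (F - G) a b)).1
    have h2 : (F - G).1 a - (F - G).1 b = (ψ (g.1 a) - ψ (g.1 b)) - (G.1 a - G.1 b) := by
      change (F.1 a - G.1 a) - (F.1 b - G.1 b) = _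
      rw [← hFv]; ring
    rw [h2] at h1
    have h3 : ‖F - G‖ * dist a b ≤ δ * ‖g‖ / 16 * dist a b :=
      mul_le_mul_of_nonneg_right hFG.le dist_nonneg
    linarith
  have hgyx : g.1 y < g.1 x := by
    by_contra hc
    push Not at hc
    have h1 := (hψ _ _ hc).1
    have h2 := hFGv x y
    rw [hatt] at h2
    have h3 : 0 ≤ (1 - δ) * (g.1 y - g.1 x) := mul_nonneg (by linarith) (by linarith)
    have h4 : 0 < (‖G‖ - δ * ‖g‖ / 16) * dist x y := by
      refine mul_pos ?_ hd
      nlinarith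
    linarith
  obtain ⟨q, hyq, hqx, r₀, hr₀, hψ3⟩ := hψ2 _ _ hgyx
  -- a fine scale
  obtain ⟨k, hk⟩ : ∃ k : ℕ, (3 / 4 : ℝ) ^ k < r₀ / (‖g‖ * dist x y) :=
    exists_pow_lt_of_lt_one (by positivity) (by norm_num)
  obtain ⟨a, b, hab, hb, ha, hGab, hdab⟩ := bisection hSNA G (by positivity : (0 : ℝ) < r / 2)
    hballG hxy hatt g.1 hyq.le hqx.le k (δ * ‖g‖ / 16) hη0
  have hdab0 : 0 < dist a b := dist_pos.2 hab
  have hsmall : ‖g‖ * dist a b < r₀ := by
    rw [lt_div_iff₀ (by positivity)] at hk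
    have h1 : ‖g‖ * dist a b ≤ ‖g‖ * ((3 / 4) ^ k * dist x y) :=
      mul_le_mul_of_nonneg_left hdab hl.le
    linarith
  have hgab := sub_le_norm g a b
  have h1 := hψ3 (g.1 b) (g.1 a) (by linarith) (by linarith) (by linarith)
  have h2 := hFGv a b
  have h3 : (1 - δ) * (g.1 a - g.1 b) ≤ (1 - δ) * (‖g‖ * dist a b) :=
    mul_le_mul_of_nonneg_left hgab (by linarith)
  have h4 : ((1 + 3 * δ / 16) * ‖g‖) * dist a b ≤ ‖G‖ * dist a b :=
    mul_le_mul_of_nonneg_right hμ hdab0.le
  have h5 : 0 < δ * ‖g‖ * dist a b := by positivity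
  linarith

/-- Every element of `LipSE(M)` strongly attains its norm. -/
theorem LipSE_subset_SNA : LipSE M o ⊆ SNA M o := by
  rintro f ⟨p, q, hpq, hf⟩
  refine ⟨p, q, hpq, ?_⟩
  -- a maximising sequence of molecules
  have hseq : ∃ u v : ℕ → M, (∀ n, u n ≠ v n) ∧
      Tendsto (fun n => |pairing (molecule (u n) (v n)) f|) atTop (𝓝 ‖f‖) := by
    rcases (norm_nonneg f).eq_or_lt with h0 | h0
    · refine ⟨fun _ => p, fun _ => q, fun _ => hpq, ?_⟩
      have h1 : ∀ n : ℕ, |pairing (molecule p q) f| = ‖f‖ := by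
        intro _
        have h2 := abs_sub_le f p q
        rw [molecule_apply, ← h0]
        rw [← h0, zero_mul] at h2
        have h3 : f.1 p - f.1 q = 0 := abs_eq_zero.1 (le_antisymm h2 (abs_nonneg _))
        rw [h3]; simp
      exact tendsto_const_nhds.congr fun n => (h1 n).symm
    · have h1 : ∀ n : ℕ, ∃ x y : M, x ≠ y ∧
          (‖f‖ * (1 - 1 / ((n : ℝ) + 1))) * dist x y < f.1 x - f.1 y := by
        intro n
        have h2 : 0 < 1 / ((n : ℝ) + 1) := by positivity
        have h3 : 1 / ((n : ℝ) + 1) ≤ 1 := by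
          rw [div_le_one (by positivity)]
          have : (0 : ℝ) ≤ n := n.cast_nonneg
          linarith
        refine exists_near_norm f (mul_nonneg h0.le (by linarith)) ?_
        nlinarith
      choose u v huv hval using h1
      refine ⟨u, v, huv, ?_⟩
      have hlo : Tendsto (fun n : ℕ => ‖f‖ * (1 - 1 / ((n : ℝ) + 1))) atTop (𝓝 ‖f‖) := by
        have h4 := (tendsto_one_div_add_atTop_nhds_zero_nat (𝕜 := ℝ)).const_sub 1
        have h5 := h4.const_mul ‖f‖
        simpa using h5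
      refine tendsto_of_tendsto_of_tendsto_of_le_of_le hlo tendsto_const_nhds ?_ ?_
      · intro n
        have hd : 0 < dist (u n) (v n) := dist_pos.2 (huv n)
        change _ ≤ |pairing (molecule (u n) (v n)) f|
        rw [molecule_apply]
        refine le_trans ?_ (le_abs_self _)
        rw [le_inv_mul_iff₀ hd, mul_comm]
        exact (hval n).le
      · intro n
        have hd : 0 < dist (u n) (v n) := dist_pos.2 (huv n)
        change |pairing (molecule (u n) (v n)) f| ≤ _
        rw [molecule_apply, abs_mul, abs_of_pos (inv_pos.2 hd), inv_mul_le_iff₀ hd, mul_comm]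
        exact abs_sub_le f (u n) (v n)
  obtain ⟨u, v, huv, hlim⟩ := hseq
  obtain ⟨φ, hφ, hconv⟩ := hf u v huv hlim
  have hlim' : Tendsto (fun n => |pairing (molecule (u (φ n)) (v (φ n))) f|) atTop
      (𝓝 ‖f‖) := hlim.comp hφ.tendsto_atTop
  have hcont : ∀ m : LipFree M o, Tendsto (fun n => (molecule (u (φ n)) (v (φ n)) : LipFree M o))
      atTop (𝓝 m) → |pairing m f| = ‖f‖ := by
    intro m hm
    have h1 : Continuous fun m : LipFree M o => |pairing m f| := by
      have h2 : Continuous fun T : StrongDual ℝ (LipZero M o) => T f :=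
        (ContinuousLinearMap.apply ℝ ℝ f).continuous
      have h3 : Continuous fun m : ↥(FreeSpace M o) => (m.1 : StrongDual ℝ (LipZero M o)) :=
        continuous_subtype_val
      exact continuous_abs.comp (h2.comp h3)
    exact tendsto_nhds_unique ((h1.tendsto m).comp hm) hlim'
  have hd : 0 < dist p q := dist_pos.2 hpq
  have hfin : |pairing (molecule p q) f| = ‖f‖ := by
    rcases hconv with h | h
    · exact hcont _ h
    · have h1 := hcont _ h
      have h2 : pairing (-molecule p q) f = -(pairing (molecule p q) f) := rfl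
      rwa [h2, abs_neg] at h1
  rw [← hfin, molecule_apply, abs_mul, abs_of_pos (inv_pos.2 hd), div_eq_inv_mul]

theorem dense_iff : Dense (LipSE M o) ↔ Dense (SNA M o) :=
  ⟨fun h => h.mono LipSE_subset_SNA, dense_LipSE_of_dense_SNA⟩

end Pool.Agent.Lib.MP_808fa7_an.Main
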